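import Pool.Agent.L0h99.RB.HOne

/-!
# The final form of the surface area constrained theorem
-/

set_option autoImplicit false

open MeasureTheory Set Metric Filter Topology
open scoped ENNReal NNReal InnerProductSpace

namespace Pool.Agent.L0h99.RB

open Pool.Agent.Helper876.Rob

theorem fin_main {n : ℕ} (hn : 2 ≤ n) {R α : ℝ} (hR : 0 < R) (hα : α < 0) :
    ∃ k c : ℝ, 0 < k ∧ 0 < c ∧ (∀ x : E n, robin (ball x R) α = ((-k : ℝ) : EReal)) ∧
      ∀ Ω : Set (E n), IsOpen Ω → Ω.Nonempty → Bornology.IsBounded Ω →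
        surf n (frontier Ω) ≤ surf n (sphere (0 : E n) R) →
        volume Ω ≤ volume (ball (0 : E n) R) ∧
        robin Ω α + ((c * (((surf n (sphere (0 : E n) R)).toReal - (surf n (frontier Ω)).toReal) +
          ((volume (ball (0 : E n) R)).toReal - (volume Ω).toReal)) : ℝ) : EReal) ≤
            robin (ball (0 : E n) R) α ∧
        (robin Ω α = robin (ball (0 : E n) R) α → interior (closure Ω) = Ω →
          ∃ x : E n, Ω = ball x R) := by
  have : Nontrivial (E n) := by
    have : Nonempty (Fin n) := ⟨⟨0, by omega⟩⟩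
    infer_instance
  obtain ⟨k, c, hk, hc, hball, hmain⟩ := per_main hn hR hα
  have hω := vol_one_pos (n := n)
  have hvR := vol_ball_eq hn hR (0 : E n)
  obtain ⟨hsf, hsr⟩ := sph_surf hn hR (0 : E n)
  rw [frontier_ball _ hR.ne'] at hsf hsr
  -- the balls
  have hbl : ∀ x : E n, robin (ball x R) α = ((-k : ℝ) : EReal) := by
    intro x
    obtain ⟨h1, h2⟩ := sph_surf hn hR x
    rw [robin_eq isOpen_ball isBounded_ball h1]
    apply le_antisymm _ (hball x)
    have h3 := (hmain (ball x R) isOpen_ball (nonempty_ball.2 hR) isBounded_ball h1 h2.le).2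
    have h4 := vol_ball_eq hn hR x
    rw [h2, h4, sub_self, sub_self, add_zero, mul_zero, sub_zero] at h3
    exact h3
  refine ⟨k, c, hk, hc, hbl, ?_⟩
  intro Ω hΩ hne hb hσ
  have hfin : surf n (frontier Ω) < ⊤ := lt_of_le_of_lt hσ hsf
  have hσr : (surf n (frontier Ω)).toReal ≤
      n * volume.real (ball (0 : E n) 1) * R ^ (n - 1) := by
    rw [← hsr]
    exact ENNReal.toReal_mono hsf.ne hσ
  obtain ⟨hV, hlam⟩ := hmain Ω hΩ hne hb hfin hσr
  have hVle : volume Ω ≤ volume (ball (0 : E n) R) := by
    rw [← ENNReal.toReal_le_toReal hb.measure_lt_top.ne measure_ball_lt_top.ne,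
      ← measureReal_def, ← measureReal_def, hvR]
    exact hV
  rw [← robin_eq hΩ hb hfin] at hlam
  have hvR' : (volume (ball (0 : E n) R)).toReal = volume.real (ball (0 : E n) 1) * R ^ n := hvR
  have hvΩ : (volume Ω).toReal = volume.real Ω := rfl
  rw [hbl 0, hsr, hvR', hvΩ]
  set D := (n * volume.real (ball (0 : E n) 1) * R ^ (n - 1) - (surf n (frontier Ω)).toReal) +
    (volume.real (ball (0 : E n) 1) * R ^ n - volume.real Ω) with hD
  refine ⟨hVle, ?_, ?_⟩
  · calc robin Ω α + ((c * D : ℝ) : EReal) ≤ ((-k - c * D : ℝ) : EReal) + ((c * D : ℝ) : EReal) :=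
          add_le_add_left hlam _
      _ = ((-k : ℝ) : EReal) := by
          rw [← EReal.coe_add]
          congr 1
          ring
  · intro heq hint
    rw [heq] at hlam
    have h1 : -k ≤ -k - c * D := EReal.coe_le_coe_iff.1 hlam
    have hD0 : D ≤ 0 := by
      have h2 : c * D ≤ 0 := by linarith
      by_contra hcon
      have h3 : 0 < c * D := mul_pos hc (not_le.1 hcon)
      linarith
    have hσeq : n * volume.real (ball (0 : E n) 1) * R ^ (n - 1) =
        (surf n (frontier Ω)).toReal := by
      rw [hD] at hD0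
      linarith
    have hVeq : volume.real Ω = volume.real (ball (0 : E n) R) := by
      rw [hvR]
      rw [hD] at hD0
      linarith
    exact Pool.Agent.Helper876.JI.ball_of_per n hn Ω hΩ hb hint R hR hVeq
      ((isoper_open hn hΩ hne hb hfin hR hVeq).1.trans (by rw [← hσeq]))

end Pool.Agent.L0h99.RB
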