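import Pool.Agent.L0h99.RB.Main

/-!
# The first Robin eigenvalue on `H¹`
-/

set_option autoImplicit false

open MeasureTheory Set Metric Filter Topology
open scoped ENNReal NNReal InnerProductSpace

namespace Pool.Agent.L0h99.RB

open Pool.Agent.Helper876.Rob

/-- `u ∈ H¹(Ω)` with weak gradient `G` and boundary values (trace) `b`: the triple `(u, G, b)` is
the limit, in `L²(Ω)`, `L²(Ω; ℝⁿ)` and `L²(∂Ω)`, of the restrictions of functions of class `C¹` on
`ℝⁿ`, their gradients and their values on `∂Ω`. -/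
structure IsHOne {n : ℕ} (Ω : Set (E n)) (u : E n → ℝ) (G : E n → E n) (b : E n → ℝ) : Prop where
  memLp : MemLp u 2 (volume.restrict Ω)
  memLp_grad : MemLp G 2 (volume.restrict Ω)
  memLp_bdry : MemLp b 2 ((surf n).restrict (frontier Ω))
  approx : ∃ φ : ℕ → E n → ℝ, (∀ k, ContDiff ℝ 1 (φ k)) ∧
    Tendsto (fun k => eLpNorm (fun x => φ k x - u x) 2 (volume.restrict Ω)) atTop (𝓝 0) ∧
    Tendsto (fun k => eLpNorm (fun x => gradient (φ k) x - G x) 2 (volume.restrict Ω))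
      atTop (𝓝 0) ∧
    Tendsto (fun k => eLpNorm (fun x => φ k x - b x) 2 ((surf n).restrict (frontier Ω)))
      atTop (𝓝 0)

/-- The first Robin eigenvalue `λ₁^α(Ω)`: the infimum of
`(∫_Ω |∇u|² + α ∫_{∂Ω} u²) / ∫_Ω u²` over the `u ∈ H¹(Ω)`, `u ≠ 0`. -/
noncomputable def robin {n : ℕ} (Ω : Set (E n)) (α : ℝ) : EReal :=
  ⨅ t : {t : (E n → ℝ) × (E n → E n) × (E n → ℝ) //
      IsHOne Ω t.1 t.2.1 t.2.2 ∧ 0 < ∫ x in Ω, t.1 x ^ 2},
    ((((∫ x in Ω, ‖t.1.2.1 x‖ ^ 2) + α * ∫ x in frontier Ω, t.1.2.2 x ^ 2 ∂(surf n)) /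
      ∫ x in Ω, t.1.1 x ^ 2 : ℝ) : EReal)

theorem sq_toLp {X F : Type*} [MeasurableSpace X] {μ : Measure X} [NormedAddCommGroup F]
    {f : X → F} (hf : MemLp f 2 μ) : ∫ x, ‖f x‖ ^ 2 ∂μ = ‖hf.toLp f‖ ^ 2 := by
  rw [Lp.norm_toLp, hf.eLpNorm_eq_integral_rpow_norm (by norm_num) (by norm_num),
    ENNReal.toReal_ofReal (by positivity)]
  simp only [ENNReal.toReal_ofNat, Real.rpow_ofNat]
  have h0 : 0 ≤ ∫ x, ‖f x‖ ^ 2 ∂μ := integral_nonneg fun x => sq_nonneg _
  rw [← Real.rpow_natCast, ← Real.rpow_mul h0]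
  norm_num

/-- convergence of the square norms -/
theorem sq_tendsto {X F : Type*} [MeasurableSpace X] {μ : Measure X} [NormedAddCommGroup F]
    {f : ℕ → X → F} {g : X → F} (hf : ∀ k, MemLp (f k) 2 μ) (hg : MemLp g 2 μ)
    (h : Tendsto (fun k => eLpNorm (fun x => f k x - g x) 2 μ) atTop (𝓝 0)) :
    Tendsto (fun k => ∫ x, ‖f k x‖ ^ 2 ∂μ) atTop (𝓝 (∫ x, ‖g x‖ ^ 2 ∂μ)) := by
  have : Fact ((1 : ℝ≥0∞) ≤ 2) := ⟨by norm_num⟩
  have h1 : Tendsto (fun k => (hf k).toLp (f k)) atTop (𝓝 (hg.toLp g)) := by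
    rw [Lp.tendsto_Lp_iff_tendsto_eLpNorm'']
    exact h
  have h2 := (h1.norm).pow 2
  simpa only [sq_toLp hg, sq_toLp (hf _)] using h2

theorem cont_memLp {n : ℕ} {F : Type*} [NormedAddCommGroup F] {μ : Measure (E n)}
    [IsFiniteMeasure μ] {L : ℝ} (hμ : μ (closedBall (0 : E n) L)ᶜ = 0) {f : E n → F}
    (hf : Continuous f) : MemLp f 2 μ := by
  obtain ⟨C, hC⟩ := (isCompact_closedBall (0 : E n) L).exists_bound_of_continuousOn hf.continuousOn
  refine MemLp.of_bound hf.aestronglyMeasurable C ?_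
  rw [ae_iff]
  refine measure_mono_null ?_ hμ
  intro x hx hx'
  exact hx (hC x hx')

theorem grad_cont {n : ℕ} {u : E n → ℝ} (hu : ContDiff ℝ 1 u) : Continuous (gradient u) := by
  unfold gradient
  exact (InnerProductSpace.toDual ℝ (E n)).symm.continuous.comp (hu.continuous_fderiv one_ne_zero)

theorem robin_eq {n : ℕ} {Ω : Set (E n)} (hΩ : IsOpen Ω) (hb : Bornology.IsBounded Ω)
    (hfin : surf n (frontier Ω) < ⊤) (α : ℝ) : robin Ω α = lam1 Ω α := by
  obtain ⟨L, hL⟩ := surf_supp hb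
  obtain ⟨L', hL'⟩ := hb.subset_closedBall (0 : E n)
  have hvL : (volume.restrict Ω) (closedBall (0 : E n) L')ᶜ = 0 := by
    rw [Measure.restrict_apply measurableSet_closedBall.compl]
    have : (closedBall (0 : E n) L')ᶜ ∩ Ω = ∅ := by
      ext x
      simp only [mem_inter_iff, mem_compl_iff, mem_empty_iff_false, iff_false, not_and]
      intro h1 h2
      exact h1 (hL' h2)
    rw [this, measure_empty]
  have hf1 : IsFiniteMeasure ((surf n).restrict (frontier Ω)) :=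
    ⟨by rw [Measure.restrict_apply_univ]; exact hfin⟩
  have hf2 : IsFiniteMeasure ((volume : Measure (E n)).restrict Ω) :=
    ⟨by rw [Measure.restrict_apply_univ]; exact hb.measure_lt_top⟩
  apply le_antisymm
  · unfold lam1
    refine le_iInf fun v => ?_
    obtain ⟨v, hv, hpos⟩ := v
    refine iInf_le_of_le ⟨(v, gradient v, v), ⟨⟨cont_memLp hvL hv.continuous,
      cont_memLp hvL (grad_cont hv), cont_memLp hL hv.continuous, fun _ => v, fun _ => hv,
      by simp, by simp, by simp⟩, hpos⟩⟩ ?_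
    simp only [rayleigh, norm_gradient, le_refl]
  · unfold robin
    refine le_iInf fun t => ?_
    obtain ⟨⟨u, G, b⟩, ⟨hu, hG, hbb, φ, hφ, h1, h2, h3⟩, hpos⟩ := t
    simp only at hu hG hbb h1 h2 h3 hpos ⊢
    have e1 := sq_tendsto (fun k => cont_memLp hvL (hφ k).continuous) hu h1
    have e2 := sq_tendsto (fun k => cont_memLp hvL (grad_cont (hφ k))) hG h2
    have e3 := sq_tendsto (fun k => cont_memLp hL (hφ k).continuous) hbb h3
    simp only [Real.norm_eq_abs, sq_abs, norm_gradient] at e1 e2 e3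
    have e4 := (e2.add (e3.const_mul α)).div e1 hpos.ne'
    have e5 := (continuous_coe_real_ereal.tendsto _).comp e4
    refine ge_of_tendsto e5 ?_
    filter_upwards [e1.eventually (lt_mem_nhds hpos)] with k hk
    exact iInf_le_of_le ⟨φ k, hφ k, hk⟩ le_rfl

end Pool.Agent.L0h99.RB
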