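import Pool.Agent.Helper876_Robin.LDom
import Pool.Agent.Helper876_Robin.LVol

/-!
# The surface area constrained problem: equality and stability
-/

set_option autoImplicit false

open MeasureTheory Set Metric Filter Topology
open scoped ENNReal NNReal InnerProductSpace

namespace Pool.Agent.L0h99.RB

open Pool.Agent.Helper876.Rob

/-- The isoperimetric inequality, volume form. -/
theorem isoper_vol_open {n : ℕ} (hn : 2 ≤ n) {Ω : Set (E n)} (hΩ : IsOpen Ω) (hne : Ω.Nonempty)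
    (hb : Bornology.IsBounded Ω) (hfin : surf n (frontier Ω) < ⊤) {R : ℝ} (hR : 0 < R)
    (hσ : (surf n (frontier Ω)).toReal ≤ n * volume.real (ball (0 : E n) 1) * R ^ (n - 1)) :
    volume.real Ω ≤ volume.real (ball (0 : E n) 1) * R ^ n := by
  have hfinM : IsFiniteMeasure ((surf n).restrict (frontier Ω)) :=
    ⟨by rw [Measure.restrict_apply_univ]; exact hfin⟩
  have hG := half_gg (by omega) hΩ hb hfin
  obtain ⟨L, hL⟩ := surf_supp hb
  have h2 := per_le' (n := n) (σ := (surf n).restrict (frontier Ω)) (by omega) hΩ hne hb hG hL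
  rw [measureReal_restrict_apply_univ] at h2
  obtain ⟨m, rfl⟩ : ∃ m, n = m + 1 := ⟨n - 1, by omega⟩
  have h3 : Pool.Agent.Helper88.Weyl.om (m + 1) = volume.real (ball (0 : E (m + 1)) 1) := by
    have := Pool.Agent.Helper88.Weyl.vol_ball (V := E (m + 1)) (n := m + 1) (by simp) (by omega) 0
      (zero_le_one (α := ℝ))
    rw [this]
    ring
  have h4 := Pool.Agent.Helper88.Weyl.isoper_vol (n := m) (E := Ω)
    hΩ.measurableSet.nullMeasurableSet (by omega) hb.measure_lt_top.ne hR (by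
      rw [h3]
      refine h2.trans (ENNReal.ofReal_le_ofReal ?_)
      have h5 : (surf (m + 1) (frontier Ω)).toReal ≤
        ((m + 1 : ℕ) : ℝ) * volume.real (ball (0 : E (m + 1)) 1) * R ^ (m + 1 - 1) := hσ
      push_cast at h5
      exact h5)
  rwa [h3] at h4

theorem sigma_pos {n : ℕ} (hn : 2 ≤ n) {Ω : Set (E n)} (hΩ : IsOpen Ω) (hne : Ω.Nonempty)
    (hb : Bornology.IsBounded Ω) (hfin : surf n (frontier Ω) < ⊤) :
    0 < (surf n (frontier Ω)).toReal := by
  by_contra hcon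
  have h0 : (surf n (frontier Ω)).toReal = 0 := le_antisymm (not_lt.1 hcon) ENNReal.toReal_nonneg
  have hω := vol_one_pos (n := n)
  have hV : 0 < volume.real Ω :=
    ENNReal.toReal_pos (hΩ.measure_pos volume hne).ne' hb.measure_lt_top.ne
  set ω := volume.real (ball (0 : E n) 1) with hωdef
  have key : ∀ R : ℝ, 0 < R → volume.real Ω ≤ ω * R ^ n := by
    intro R hR
    apply isoper_vol_open hn hΩ hne hb hfin hR
    rw [h0]
    positivity
  have h1 : Tendsto (fun R : ℝ => ω * R ^ n) (𝓝[>] 0) (𝓝 (ω * 0 ^ n)) := by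
    apply Tendsto.mono_left _ nhdsWithin_le_nhds
    exact (continuous_const.mul (continuous_pow n)).tendsto 0
  rw [zero_pow (by omega), mul_zero] at h1
  have h2 : volume.real Ω ≤ 0 := by
    apply ge_of_tendsto h1
    filter_upwards [self_mem_nhdsWithin] with R hR
    exact key R hR
  linarith

/-- the radius of the ball with given surface area -/
theorem exists_radius {n : ℕ} (hn : 2 ≤ n) {s : ℝ} (hs : 0 < s) :
    ∃ R : ℝ, 0 < R ∧ s = n * volume.real (ball (0 : E n) 1) * R ^ (n - 1) := by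
  have hω := vol_one_pos (n := n)
  have hn0 : (0:ℝ) < n := by
    have : 0 < n := by omega
    exact_mod_cast this
  have h0 : 0 < s / (n * volume.real (ball (0 : E n) 1)) := by positivity
  refine ⟨(s / (n * volume.real (ball (0 : E n) 1))) ^ (((n - 1 : ℕ) : ℝ)⁻¹),
    Real.rpow_pos_of_pos h0 _, ?_⟩
  rw [Real.rpow_inv_natCast_pow h0.le (by omega)]
  field_simp

/-- **The surface area constrained estimate, with the case of equality.** -/
theorem per_key {n : ℕ} (hn : 2 ≤ n) {Ω : Set (E n)} (hΩ : IsOpen Ω) (hne : Ω.Nonempty)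
    (hb : Bornology.IsBounded Ω) (hfin : surf n (frontier Ω) < ⊤) {A κ : ℝ} (hκ : 0 < κ)
    (hco : ∀ u : E n → ℝ, ContDiff ℝ 1 u → A * (∫ x in frontier Ω, u x ^ 2 ∂(surf n)) ≤
      (∫ x in Ω, ‖fderiv ℝ u x‖ ^ 2) + κ * ∫ x in Ω, u x ^ 2)
    {p : ℝ → ℝ} (hpc : Continuous p)
    (hp : ∀ κ : ℝ, 0 < κ → Prof n κ (fun r => Real.sqrt κ * p (Real.sqrt κ * r))) {R : ℝ}
    (hR : 0 < R)
    (hσR : (surf n (frontier Ω)).toReal = n * volume.real (ball (0 : E n) 1) * R ^ (n - 1)) :
    A ≤ Real.sqrt κ * p (Real.sqrt κ * R) := by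
  by_contra hcon
  have hlt : Real.sqrt κ * p (Real.sqrt κ * R) < A := not_le.1 hcon
  have hn0 : (2:ℝ) ≤ n := by exact_mod_cast hn
  have hn1 : 0 < (n : ℝ) - 1 := by linarith
  have hω := vol_one_pos (n := n)
  have hV := isoper_vol_open hn hΩ hne hb hfin hR hσR.le
  have h1 := rough0 hn hΩ hne hb hfin hκ hco hpc hp hR hlt
  have hσ0 := sigma_pos hn hΩ hne hb hfin
  set ω := volume.real (ball (0 : E n) 1) with hωdef
  set σ := (surf n (frontier Ω)).toReal with hσdef
  set δ := 1 / ((n : ℝ) - 1) * (1 - TT n 1 p (Real.sqrt κ * R)) with hδ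
  have hRn : R ^ n = R * R ^ (n - 1) := by
    obtain ⟨m, rfl⟩ : ∃ m, n = m + 1 := ⟨n - 1, by omega⟩
    rw [Nat.add_sub_cancel, pow_succ]
    ring
  have h2 : ω * (n * (R ^ n / n - R ^ n / ((n : ℝ) - 1) * (1 - TT n 1 p (Real.sqrt κ * R)))) =
      ω * R ^ n - n * ω * R ^ n * δ := by
    rw [hδ]; field_simp
  have h3 : ((A - Real.sqrt κ * p (Real.sqrt κ * R)) / κ +
      R / ((n : ℝ) - 1) * (1 - TT n 1 p (Real.sqrt κ * R))) * σ =
      (A - Real.sqrt κ * p (Real.sqrt κ * R)) / κ * σ + R * δ * σ := by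
    rw [hδ]; ring
  rw [h2, h3] at h1
  have h4 : 0 < (A - Real.sqrt κ * p (Real.sqrt κ * R)) / κ * σ := by
    have : 0 < A - Real.sqrt κ * p (Real.sqrt κ * R) := by linarith
    positivity
  have h5 : n * ω * R ^ n * δ = R * δ * σ := by
    rw [hσR, hRn]; ring
  linarith

/-- The estimate of the two deficits at a radius `r` at which the ball has a smaller slope. -/
theorem per_def {n : ℕ} (hn : 2 ≤ n) {Ω : Set (E n)} (hΩ : IsOpen Ω) (hne : Ω.Nonempty)
    (hb : Bornology.IsBounded Ω) (hfin : surf n (frontier Ω) < ⊤) {A κ : ℝ} (hκ : 0 < κ)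
    (hco : ∀ u : E n → ℝ, ContDiff ℝ 1 u → A * (∫ x in frontier Ω, u x ^ 2 ∂(surf n)) ≤
      (∫ x in Ω, ‖fderiv ℝ u x‖ ^ 2) + κ * ∫ x in Ω, u x ^ 2)
    {p : ℝ → ℝ} (hpc : Continuous p)
    (hp : ∀ κ : ℝ, 0 < κ → Prof n κ (fun r => Real.sqrt κ * p (Real.sqrt κ * r))) {r : ℝ}
    (hr : 0 < r) (hlt : Real.sqrt κ * p (Real.sqrt κ * r) < A) :
    n * volume.real (ball (0 : E n) 1) * r ^ (n - 1) ≤ (surf n (frontier Ω)).toReal ∧
    volume.real (ball (0 : E n) 1) * r ^ n +
      r * (1 / ((n : ℝ) - 1) * (1 - TT n 1 p (Real.sqrt κ * r))) *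
        ((surf n (frontier Ω)).toReal - n * volume.real (ball (0 : E n) 1) * r ^ (n - 1)) ≤
      volume.real Ω := by
  have hn0 : (2:ℝ) ≤ n := by exact_mod_cast hn
  have hn1 : 0 < (n : ℝ) - 1 := by linarith
  have hω := vol_one_pos (n := n)
  have hσ0 := sigma_pos hn hΩ hne hb hfin
  have hp1 : Prof n 1 p := by simpa using hp 1 one_pos
  have hsκ : 0 < Real.sqrt κ := Real.sqrt_pos.2 hκ
  constructor
  · obtain ⟨R', hR', hσR'⟩ := exists_radius hn hσ0
    have h1 := per_key hn hΩ hne hb hfin hκ hco hpc hp hR' hσR'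
    have h2 : r ≤ R' := by
      by_contra hcon
      have hlt' : R' < r := not_le.1 hcon
      have h3 : Real.sqrt κ * p (Real.sqrt κ * R') < Real.sqrt κ * p (Real.sqrt κ * r) := by
        apply mul_lt_mul_of_pos_left _ hsκ
        apply hp1.mono
        · exact (mul_pos hsκ hR').le
        · exact (mul_pos hsκ hr).le
        · exact mul_lt_mul_of_pos_left hlt' hsκ
      linarith
    rw [hσR']
    apply mul_le_mul_of_nonneg_left _ (by positivity)
    exact pow_le_pow_left₀ hr.le h2 _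
  · have h1 := rough0 hn hΩ hne hb hfin hκ hco hpc hp hr hlt
    set ω := volume.real (ball (0 : E n) 1) with hωdef
    set σ := (surf n (frontier Ω)).toReal with hσdef
    set δ := 1 / ((n : ℝ) - 1) * (1 - TT n 1 p (Real.sqrt κ * r)) with hδ
    have hRn : r ^ n = r * r ^ (n - 1) := by
      obtain ⟨m, rfl⟩ : ∃ m, n = m + 1 := ⟨n - 1, by omega⟩
      rw [Nat.add_sub_cancel, pow_succ]
      ring
    have h2 : ω * (n * (r ^ n / n - r ^ n / ((n : ℝ) - 1) * (1 - TT n 1 p (Real.sqrt κ * r)))) =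
        ω * r ^ n - n * ω * r ^ n * δ := by
      rw [hδ]; field_simp
    have h3 : ((A - Real.sqrt κ * p (Real.sqrt κ * r)) / κ +
        r / ((n : ℝ) - 1) * (1 - TT n 1 p (Real.sqrt κ * r))) * σ =
        (A - Real.sqrt κ * p (Real.sqrt κ * r)) / κ * σ + r * δ * σ := by
      rw [hδ]; ring
    rw [h2, h3] at h1
    have h4 : 0 < (A - Real.sqrt κ * p (Real.sqrt κ * r)) / κ * σ := by
      have : 0 < A - Real.sqrt κ * p (Real.sqrt κ * r) := by linarith
      positivity
    have h5 : r * δ * (σ - n * ω * r ^ (n - 1)) = r * δ * σ - n * ω * r ^ n * δ := by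
      rw [hRn]; ring
    rw [h5]
    linarith

end Pool.Agent.L0h99.RB
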