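import Pool.Agent.L0h99.RB.Stab

/-!
# The surface area constrained theorem: inequality, stability, uniqueness
-/

set_option autoImplicit false

open MeasureTheory Set Metric Filter Topology
open scoped ENNReal NNReal InnerProductSpace

namespace Pool.Agent.L0h99.RB

open Pool.Agent.Helper876.Rob

/-- surface area of the sphere -/
theorem sph_surf {n : ℕ} (hn : 2 ≤ n) {R : ℝ} (hR : 0 < R) (c : E n) :
    surf n (frontier (ball c R)) < ⊤ ∧ (surf n (frontier (ball c R))).toReal =
      n * volume.real (ball (0 : E n) 1) * R ^ (n - 1) := by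
  have : Nontrivial (E n) := by
    have : Nonempty (Fin n) := ⟨⟨0, by omega⟩⟩
    infer_instance
  have hsph : surf n (frontier (ball c R)) =
      ENNReal.ofReal (R ^ (n - 1)) * (n * (volume : Measure (E n)) (ball 0 1)) := by
    rw [frontier_ball c hR.ne']
    exact Pool.Agent.Helper876.JS.sphere_mass n hn c R hR
  constructor
  · rw [hsph]
    exact ENNReal.mul_lt_top ENNReal.ofReal_lt_top
      (ENNReal.mul_lt_top (ENNReal.natCast_lt_top n) measure_ball_lt_top)
  · rw [hsph, ENNReal.toReal_mul, ENNReal.toReal_mul,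
      ENNReal.toReal_ofReal (by positivity), ENNReal.toReal_natCast, measureReal_def]
    ring

/-- **Inequality and stability**, for `C¹` test functions. -/
theorem per_main {n : ℕ} (hn : 2 ≤ n) {R α : ℝ} (hR : 0 < R) (hα : α < 0) :
    ∃ k c : ℝ, 0 < k ∧ 0 < c ∧ (∀ x : E n, ((-k : ℝ) : EReal) ≤ lam1 (ball x R) α) ∧
      ∀ Ω : Set (E n), IsOpen Ω → Ω.Nonempty → Bornology.IsBounded Ω →
        surf n (frontier Ω) < ⊤ →
        (surf n (frontier Ω)).toReal ≤ n * volume.real (ball (0 : E n) 1) * R ^ (n - 1) →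
        volume.real Ω ≤ volume.real (ball (0 : E n) 1) * R ^ n ∧
        lam1 Ω α ≤ ((-k - c * ((n * volume.real (ball (0 : E n) 1) * R ^ (n - 1) -
          (surf n (frontier Ω)).toReal) +
          (volume.real (ball (0 : E n) 1) * R ^ n - volume.real Ω)) : ℝ) : EReal) := by
  obtain ⟨p, hpc, hp⟩ := prof_exists n hn
  have hp1 : Prof n 1 p := by simpa using hp 1 one_pos
  have hA0 : 0 < -α := by linarith
  obtain ⟨k, hk, hkA⟩ := exists_kappa hn hp1 hR hA0
  have hsk : 0 < Real.sqrt k := Real.sqrt_pos.2 hk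
  have hn0 : (2:ℝ) ≤ n := by exact_mod_cast hn
  have hω := vol_one_pos (n := n)
  obtain ⟨C, s₀, hC, hs₀, hst⟩ := stab hn hpc hp hR hk hkA
  set ω := volume.real (ball (0 : E n) 1) with hωdef
  set C2 := max C ((n * ω * R ^ (n - 1) + ω * R ^ n) / s₀) with hC2
  have hC20 : 0 < C2 := lt_of_lt_of_le hC (le_max_left _ _)
  refine ⟨k, k / C2, hk, by positivity, ?_, ?_⟩
  · intro x
    have h := lam1_ball_ge hn (hp k hk) hR (A := -α) (le_of_eq hkA.symm) x
    rwa [neg_neg] at h
  intro Ω hΩ hne hb hfin hσR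
  have hV := isoper_vol_open hn hΩ hne hb hfin hR hσR
  refine ⟨hV, ?_⟩
  rw [← hωdef] at hV
  have hσ0 := sigma_pos hn hΩ hne hb hfin
  set σ := (surf n (frontier Ω)).toReal with hσdef
  have hVp : 0 ≤ volume.real Ω := measureReal_nonneg
  set D := (n * ω * R ^ (n - 1) - σ) + (ω * R ^ n - volume.real Ω) with hD
  have hD0 : 0 ≤ D := by rw [hD]; linarith
  -- the claim for real numbers below the eigenvalue
  have claim : ∀ κ : ℝ, 0 < κ → ((-κ : ℝ) : EReal) ≤ lam1 Ω α → k + k / C2 * D ≤ κ := by
    intro κ hκ hle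
    have hkκ : k ≤ κ := by
      by_contra hcon
      have hlt : κ < k := not_le.1 hcon
      obtain ⟨R', hR', hσR'⟩ := exists_radius hn hσ0
      rw [← hωdef] at hσR'
      have h1 := per_key hn hΩ hne hb hfin hκ (form_of_lam1 hΩ hb hle) hpc hp hR' hσR'
      have hRR : R' ≤ R := by
        by_contra hc
        have h2 : R < R' := not_le.1 hc
        have h3 : R ^ (n - 1) < R' ^ (n - 1) := pow_lt_pow_left₀ h2 hR.le (by omega)
        have h4 : n * ω * R ^ (n - 1) < n * ω * R' ^ (n - 1) :=
          mul_lt_mul_of_pos_left h3 (by positivity)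
        linarith
      have hs : Real.sqrt κ < Real.sqrt k := Real.sqrt_lt_sqrt hκ.le hlt
      have hs0 : 0 < Real.sqrt κ := Real.sqrt_pos.2 hκ
      have hxx : Real.sqrt κ * R' < Real.sqrt k * R := by
        calc Real.sqrt κ * R' ≤ Real.sqrt κ * R := mul_le_mul_of_nonneg_left hRR hs0.le
          _ < Real.sqrt k * R := mul_lt_mul_of_pos_right hs hR
      have hx0 : 0 < Real.sqrt κ * R' := by positivity
      have hpp : p (Real.sqrt κ * R') < p (Real.sqrt k * R) := by
        apply hp1.mono
        · exact hx0.le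
        · exact (mul_pos hsk hR).le
        · exact hxx
      have h5 : Real.sqrt κ * p (Real.sqrt κ * R') < Real.sqrt k * p (Real.sqrt k * R) :=
        mul_lt_mul'' hs hpp hs0.le (hp1.pos _ hx0).le
      linarith
    have hco : ∀ t : ℝ, κ ≤ k * (1 + t) → ∀ u : E n → ℝ, ContDiff ℝ 1 u →
        -α * (∫ x in frontier Ω, u x ^ 2 ∂(surf n)) ≤
        (∫ x in Ω, ‖fderiv ℝ u x‖ ^ 2) + (k * (1 + t)) * ∫ x in Ω, u x ^ 2 := by
      intro t ht u hu
      apply form_of_lam1 hΩ hb _ u hu
      refine le_trans ?_ hle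
      apply EReal.coe_le_coe_iff.2
      linarith
    have hDC : D ≤ C2 * (κ / k - 1) := by
      rcases lt_or_ge (κ / k - 1) s₀ with hlt | hge
      · -- the limit
        have h1 : ∀ᶠ t in 𝓝[>] (κ / k - 1), D ≤ C * t := by
          filter_upwards [Ioo_mem_nhdsGT hlt] with t ht
          have ht0 : 0 < t := by
            have : 0 ≤ κ / k - 1 := by
              rw [sub_nonneg, le_div_iff₀ hk]; linarith
            linarith [ht.1]
          apply hst t ht0 ht.2 Ω hΩ hne hb hfin hσR
          apply hco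
          have h2 : κ / k < 1 + t := by linarith [ht.1]
          rw [div_lt_iff₀ hk] at h2
          linarith
        have h2 : Tendsto (fun t : ℝ => C * t) (𝓝[>] (κ / k - 1)) (𝓝 (C * (κ / k - 1))) :=
          ((continuous_const.mul continuous_id).tendsto _).mono_left nhdsWithin_le_nhds
        have h3 : D ≤ C * (κ / k - 1) := ge_of_tendsto h2 h1
        have h4 : 0 ≤ κ / k - 1 := by
          rw [sub_nonneg, le_div_iff₀ hk]; linarith
        exact h3.trans (mul_le_mul_of_nonneg_right (le_max_left _ _) h4)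
      · have h1 : D ≤ n * ω * R ^ (n - 1) + ω * R ^ n := by
          rw [hD]; linarith
        calc D ≤ n * ω * R ^ (n - 1) + ω * R ^ n := h1
          _ = (n * ω * R ^ (n - 1) + ω * R ^ n) / s₀ * s₀ := by field_simp
          _ ≤ C2 * (κ / k - 1) := by
            apply mul_le_mul (le_max_right _ _) hge hs₀.le hC20.le
    have h1 : k / C2 * D ≤ k / C2 * (C2 * (κ / k - 1)) :=
      mul_le_mul_of_nonneg_left hDC (by positivity)
    have h2 : k / C2 * (C2 * (κ / k - 1)) = κ - k := by field_simp
    linarith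
  -- conclusion
  by_contra hcon
  push Not at hcon
  obtain ⟨q, hq1, hq2⟩ := EReal.lt_iff_exists_real_btwn.1 hcon
  have hq1' : -k - k / C2 * D < q := by exact_mod_cast hq1
  rcases lt_or_ge q 0 with hq0 | hq0
  · have h1 := claim (-q) (by linarith) (by rw [neg_neg]; exact hq2.le)
    linarith
  · have h1 := claim (k / 2) (by positivity) (by
      refine le_trans ?_ hq2.le
      apply EReal.coe_le_coe_iff.2
      linarith)
    have h2 : 0 ≤ k / C2 * D := by positivity
    linarith

end Pool.Agent.L0h99.RB
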