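import Pool.Agent.L0h99.RB.Key

/-!
# Stability in the surface area constrained problem
-/

set_option autoImplicit false

open MeasureTheory Set Metric Filter Topology
open scoped ENNReal NNReal InnerProductSpace

namespace Pool.Agent.L0h99.RB

open Pool.Agent.Helper876.Rob

/-- Radii slightly smaller than `R` at eigenvalue parameters slightly larger than that of the
ball of radius `R`. -/
theorem exists_slope {n : ℕ} {p : ℝ → ℝ} (hp1 : Prof n 1 p) {x : ℝ} (hx : 0 < x) :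
    ∃ K s₀ : ℝ, 0 < K ∧ 0 < s₀ ∧ K * s₀ ≤ 1 / 2 ∧ ∀ s : ℝ, 0 < s → s < s₀ →
      Real.sqrt (1 + s) * p (x * Real.sqrt (1 + s) * (1 - K * s)) < p x := by
  have hd := hp1.deriv x hx
  have hd0 := hp1.dpos x hx
  set d := 1 - p x ^ 2 - ((n : ℝ) - 1) / x * p x with hdd
  have hpx := hp1.pos x hx
  set K := 1 / 2 + p x / (2 * x * d) + 1 with hK
  have hK0 : 0 < K := by positivity
  -- derivative of the square root factor
  have hs : HasDerivAt (fun s : ℝ => Real.sqrt (1 + s)) (1 / 2) 0 := by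
    have h1 : HasDerivAt (fun s : ℝ => 1 + s) 1 0 := (hasDerivAt_id (0:ℝ)).const_add 1
    have h2 := h1.sqrt (by norm_num)
    simpa using h2
  have hm : HasDerivAt (fun s : ℝ => 1 - K * s) (-K) 0 := by
    have h1 : HasDerivAt (fun s : ℝ => K * s) (K * 1) 0 := (hasDerivAt_id (0:ℝ)).const_mul K
    have h2 := h1.const_sub 1
    simpa using h2
  have hin : HasDerivAt (fun s : ℝ => x * Real.sqrt (1 + s) * (1 - K * s)) (x * (1 / 2 - K)) 0 := by
    have h1 := (hs.const_mul x).mul hm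
    refine h1.congr_deriv ?_
    simp
    ring
  have hp0 : HasDerivAt p d (x * Real.sqrt (1 + 0) * (1 - K * 0)) := by
    simpa using hd
  have hcomp : HasDerivAt (fun s : ℝ => p (x * Real.sqrt (1 + s) * (1 - K * s)))
      (d * (x * (1 / 2 - K))) 0 := hp0.comp (0:ℝ) hin
  have hg : HasDerivAt (fun s : ℝ => Real.sqrt (1 + s) * p (x * Real.sqrt (1 + s) * (1 - K * s)))
      (1 / 2 * p x + d * (x * (1 / 2 - K))) 0 := by
    have h1 := hs.mul hcomp
    refine h1.congr_deriv ?_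
    simp
  have hneg : 1 / 2 * p x + d * (x * (1 / 2 - K)) < 0 := by
    rw [hK]
    have : d * (x * (1 / 2 - (1 / 2 + p x / (2 * x * d) + 1))) = -(1 / 2 * p x) - d * x := by
      field_simp
      ring
    rw [this]
    have : 0 < d * x := by positivity
    linarith
  have hslope := hasDerivAt_iff_tendsto_slope.1 hg
  have hev : ∀ᶠ s in 𝓝[>] (0:ℝ), slope (fun s : ℝ => Real.sqrt (1 + s) *
      p (x * Real.sqrt (1 + s) * (1 - K * s))) 0 s < 0 := by
    have h1 : ∀ᶠ s in 𝓝[≠] (0:ℝ), slope (fun s : ℝ => Real.sqrt (1 + s) *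
      p (x * Real.sqrt (1 + s) * (1 - K * s))) 0 s < 0 := hslope.eventually_lt_const hneg
    exact (nhdsWithin_mono _ (fun y hy => ne_of_gt hy)) h1
  obtain ⟨s₁, hs₁, hall⟩ := (mem_nhdsGT_iff_exists_Ioo_subset.1 hev)
  have hs₁0 : 0 < s₁ := hs₁
  refine ⟨K, min s₁ (1 / (2 * K)), hK0, lt_min hs₁0 (by positivity), ?_, ?_⟩
  · calc K * min s₁ (1 / (2 * K)) ≤ K * (1 / (2 * K)) :=
        mul_le_mul_of_nonneg_left (min_le_right _ _) hK0.le
      _ = 1 / 2 := by field_simp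
  · intro s h1 h2
    have h3 := hall ⟨h1, lt_of_lt_of_le h2 (min_le_left _ _)⟩
    simp only [mem_ofPred_eq, slope_def_field, sub_zero] at h3
    rw [div_lt_iff₀ h1] at h3
    simp at h3
    linarith

/-- **The stability estimate** with the normalised profile `p`. -/
theorem stab {n : ℕ} (hn : 2 ≤ n) {p : ℝ → ℝ} (hpc : Continuous p)
    (hp : ∀ κ : ℝ, 0 < κ → Prof n κ (fun r => Real.sqrt κ * p (Real.sqrt κ * r)))
    {R k A : ℝ} (hR : 0 < R) (hk : 0 < k) (hkA : Real.sqrt k * p (Real.sqrt k * R) = A) :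
    ∃ C s₀ : ℝ, 0 < C ∧ 0 < s₀ ∧ ∀ s : ℝ, 0 < s → s < s₀ → ∀ Ω : Set (E n), IsOpen Ω →
      Ω.Nonempty → Bornology.IsBounded Ω → surf n (frontier Ω) < ⊤ →
      (surf n (frontier Ω)).toReal ≤ n * volume.real (ball (0 : E n) 1) * R ^ (n - 1) →
      (∀ u : E n → ℝ, ContDiff ℝ 1 u → A * (∫ x in frontier Ω, u x ^ 2 ∂(surf n)) ≤
        (∫ x in Ω, ‖fderiv ℝ u x‖ ^ 2) + (k * (1 + s)) * ∫ x in Ω, u x ^ 2) →
      (n * volume.real (ball (0 : E n) 1) * R ^ (n - 1) - (surf n (frontier Ω)).toReal) +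
        (volume.real (ball (0 : E n) 1) * R ^ n - volume.real Ω) ≤ C * s := by
  have hn0 : (2:ℝ) ≤ n := by exact_mod_cast hn
  have hn1 : 0 < (n : ℝ) - 1 := by linarith
  have hω := vol_one_pos (n := n)
  set ω := volume.real (ball (0 : E n) 1) with hωdef
  have hp1 : Prof n 1 p := by simpa using hp 1 one_pos
  have hsk : 0 < Real.sqrt k := Real.sqrt_pos.2 hk
  have hx0 : 0 < Real.sqrt k * R := by positivity
  obtain ⟨K, s₀, hK, hs₀, hKs, hlt⟩ := exists_slope hp1 hx0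
  set M := TT n 1 p (Real.sqrt k * R * Real.sqrt (1 + s₀)) with hM
  have hM0 : 1 / (n : ℝ) ≤ M := hp1.TT_ge hn (by positivity)
  have hM1 : 0 < M := lt_of_lt_of_le (by positivity) hM0
  -- the constant
  refine ⟨(1 + R * (1 + M)) * (n * ω * R ^ (n - 1) * ((n - 1 : ℕ) * K)) + ω * R ^ n * (n * K), s₀,
    by positivity, hs₀, ?_⟩
  intro s hs hss₀ Ω hΩ hne hb hfin hσR hco
  have hKs1 : K * s ≤ 1 / 2 := (mul_le_mul_of_nonneg_left hss₀.le hK.le).trans hKs
  have hKs0 : 0 < K * s := by positivity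
  set r := R * (1 - K * s) with hr
  have hr0 : 0 < r := by
    rw [hr]
    apply mul_pos hR
    linarith
  have hrR : r ≤ R := by
    rw [hr]
    nlinarith
  have hκ : 0 < k * (1 + s) := by positivity
  have hsq : Real.sqrt (k * (1 + s)) = Real.sqrt k * Real.sqrt (1 + s) := Real.sqrt_mul hk.le _
  have hslope : Real.sqrt (k * (1 + s)) * p (Real.sqrt (k * (1 + s)) * r) < A := by
    have h1 := hlt s hs hss₀
    have h2 : Real.sqrt (k * (1 + s)) * r = Real.sqrt k * R * Real.sqrt (1 + s) * (1 - K * s) := by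
      rw [hsq, hr]; ring
    rw [h2, hsq, mul_assoc, ← hkA]
    exact mul_lt_mul_of_pos_left h1 hsk
  obtain ⟨h1, h2⟩ := per_def hn hΩ hne hb hfin hκ hco hpc hp hr0 hslope
  rw [← hωdef] at h1 h2
  set σ := (surf n (frontier Ω)).toReal with hσdef
  -- the factor `δ`
  have hxr0 : 0 < Real.sqrt (k * (1 + s)) * r := by
    have : 0 < Real.sqrt (k * (1 + s)) := Real.sqrt_pos.2 hκ
    positivity
  have hxr1 : Real.sqrt (k * (1 + s)) * r ≤ Real.sqrt k * R * Real.sqrt (1 + s₀) := by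
    rw [hsq]
    have h3 : Real.sqrt (1 + s) ≤ Real.sqrt (1 + s₀) := Real.sqrt_le_sqrt (by linarith)
    have h4 : 0 < Real.sqrt (1 + s) := Real.sqrt_pos.2 (by linarith)
    calc Real.sqrt k * Real.sqrt (1 + s) * r ≤ Real.sqrt k * Real.sqrt (1 + s) * R :=
          mul_le_mul_of_nonneg_left hrR (by positivity)
      _ ≤ Real.sqrt k * Real.sqrt (1 + s₀) * R := by
          apply mul_le_mul_of_nonneg_right _ hR.le
          exact mul_le_mul_of_nonneg_left h3 hsk.le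
      _ = _ := by ring
  have hTle : TT n 1 p (Real.sqrt (k * (1 + s)) * r) ≤ M :=
    hp1.TT_mono hn hxr0 (lt_of_lt_of_le hxr0 hxr1) hxr1
  set δ := 1 / ((n : ℝ) - 1) * (1 - TT n 1 p (Real.sqrt (k * (1 + s)) * r)) with hδ
  have hδM : -(1 + M) ≤ δ := by
    rw [hδ]
    have h5 : 1 / ((n : ℝ) - 1) ≤ 1 := by
      rw [div_le_one hn1]; linarith
    have h6 : 0 < 1 / ((n : ℝ) - 1) := by positivity
    have h7 : 1 / ((n : ℝ) - 1) * (1 - M) ≤
        1 / ((n : ℝ) - 1) * (1 - TT n 1 p (Real.sqrt (k * (1 + s)) * r)) :=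
      mul_le_mul_of_nonneg_left (by linarith) h6.le
    nlinarith
  -- Bernoulli
  have hb1 : ∀ j : ℕ, R ^ j - r ^ j ≤ R ^ j * (j * K * s) := by
    intro j
    have h3 := one_add_mul_le_pow (show (-2:ℝ) ≤ -(K * s) by linarith) j
    rw [hr, mul_pow]
    have h4 : (1 - K * s) ^ j = (1 + -(K * s)) ^ j := by ring
    rw [h4]
    have h5 : 0 < R ^ j := by positivity
    nlinarith
  have hb2 := hb1 (n - 1)
  have hb3 := hb1 n
  have hσr : 0 ≤ σ - n * ω * r ^ (n - 1) := by linarith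
  have hnω : 0 < n * ω := by positivity
  have hσ2 : σ - n * ω * r ^ (n - 1) ≤ n * ω * R ^ (n - 1) * ((n - 1 : ℕ) * K * s) := by
    have h3 : n * ω * R ^ (n - 1) - n * ω * r ^ (n - 1) ≤
        n * ω * (R ^ (n - 1) * ((n - 1 : ℕ) * K * s)) := by
      rw [← mul_sub]
      exact mul_le_mul_of_nonneg_left hb2 hnω.le
    linarith
  have hδσ : -(R * (1 + M)) * (n * ω * R ^ (n - 1) * ((n - 1 : ℕ) * K * s)) ≤
      r * δ * (σ - n * ω * r ^ (n - 1)) := by
    have h3 : -(R * (1 + M)) ≤ r * δ := by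
      have h4 : r * -(1 + M) ≤ r * δ := mul_le_mul_of_nonneg_left hδM hr0.le
      have h5 : r * (1 + M) ≤ R * (1 + M) := mul_le_mul_of_nonneg_right hrR (by positivity)
      linarith
    have h4 : -(R * (1 + M)) * (σ - n * ω * r ^ (n - 1)) ≤ r * δ * (σ - n * ω * r ^ (n - 1)) :=
      mul_le_mul_of_nonneg_right h3 hσr
    have h5 : (R * (1 + M)) * (σ - n * ω * r ^ (n - 1)) ≤
        (R * (1 + M)) * (n * ω * R ^ (n - 1) * ((n - 1 : ℕ) * K * s)) :=
      mul_le_mul_of_nonneg_left hσ2 (by positivity)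
    linarith
  have hσ3 : n * ω * R ^ (n - 1) - σ ≤ n * ω * R ^ (n - 1) * ((n - 1 : ℕ) * K * s) := by
    have h3 : n * ω * R ^ (n - 1) - n * ω * r ^ (n - 1) ≤
        n * ω * (R ^ (n - 1) * ((n - 1 : ℕ) * K * s)) := by
      rw [← mul_sub]
      exact mul_le_mul_of_nonneg_left hb2 hnω.le
    linarith
  have hV1 : ω * R ^ n - ω * r ^ n ≤ ω * (R ^ n * (n * K * s)) := by
    rw [← mul_sub]
    exact mul_le_mul_of_nonneg_left hb3 hω.le
  have hfinal : ((1 + R * (1 + M)) * (n * ω * R ^ (n - 1) * ((n - 1 : ℕ) * K)) +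
      ω * R ^ n * (n * K)) * s = n * ω * R ^ (n - 1) * ((n - 1 : ℕ) * K * s) +
      (R * (1 + M)) * (n * ω * R ^ (n - 1) * ((n - 1 : ℕ) * K * s)) +
      ω * (R ^ n * (n * K * s)) := by ring
  rw [hfinal]
  linarith

end Pool.Agent.L0h99.RB
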